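import Mathlib
import Pool.Agent.P.MP_8f38d0_ag.Frob

set_option autoImplicit false

namespace Pool.Agent.Results.MP_8f38d0_ag.CharThree

theorem result (k : Type) [Field k] [CharP k 3]
    [FiniteDimensional (frobenius k 3).fieldRange k] (n : ℕ)
    (hn : (Module.finrank (frobenius k 3).fieldRange k + 1) ^ 2 ≤ n + 1)
    (F : MvPolynomial (Fin (n + 1)) k) (hF : F.IsHomogeneous 3) :
    ∃ x : Fin (n + 1) → k, x ≠ 0 ∧ MvPolynomial.eval x F = 0 :=
  Pool.Agent.P.MP_8f38d0_ag.Cub.charThree (by simpa using hn) F hF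

end Pool.Agent.Results.MP_8f38d0_ag.CharThree
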