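import Mathlib
import Pool.Agent.P.MP_8f38d0_ag.Main

set_option autoImplicit false

namespace Pool.Agent.Results.MP_8f38d0_ag.IndexThree

open MvPolynomial

/-- `cd G ≤ 1`: continuous cohomology in degrees `≥ 2` vanishes for every discrete torsion
module with continuous action. -/
def CdLeOne (G : Type) [Group G] [TopologicalSpace G] [IsTopologicalGroup G] : Prop :=
  ∀ A : TopRep.{0} ℤ G,
    DiscreteTopology A → (∀ a : A, Continuous fun g => A.ρ g a) → (∀ a : A, IsOfFinAddOrder a) →
    ∀ q : ℕ, 2 ≤ q → CategoryTheory.Limits.IsZero (continuousCohomology q A)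

/-- The field `k` has cohomological dimension at most one. -/
def FieldCdLeOne (k : Type) [Field k] : Prop :=
  CdLeOne (AlgEquiv k (SeparableClosure k) (SeparableClosure k))

/-- `F` is a cubic form whose hypersurface is smooth (Jacobian criterion). -/
def IsSmoothCubic {k : Type} [Field k] {n : ℕ} (F : MvPolynomial (Fin (n + 1)) k) : Prop :=
  F.IsHomogeneous 3 ∧
    ∀ x : Fin (n + 1) → AlgebraicClosure k,
      aeval x F = 0 → (∀ i, aeval x (pderiv i F) = 0) → x = 0

/-- The projective hypersurface `F = 0` has an `L`-point. -/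
def HasPoint {k : Type} [Field k] {n : ℕ} (F : MvPolynomial (Fin (n + 1)) k)
    (L : Type) [Field L] [Algebra k L] : Prop :=
  ∃ x : Fin (n + 1) → L, x ≠ 0 ∧ aeval x F = 0

/-- `d` divides the index of the hypersurface `F = 0`. -/
def DvdIndex {k : Type} [Field k] {n : ℕ} (d : ℕ) (F : MvPolynomial (Fin (n + 1)) k) : Prop :=
  ∀ (L : Type) [Field L] [Algebra k L] [FiniteDimensional k L],
    HasPoint F L → d ∣ Module.finrank k L

theorem result (n : ℕ) :
    ∃ (k : Type) (_ : Field k) (F : MvPolynomial (Fin (n + 1)) k),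
      ringChar k = 3 ∧ FieldCdLeOne k ∧ IsSmoothCubic F ∧ ¬ HasPoint F k ∧ DvdIndex 3 F := by
  obtain ⟨k, _, hc, F, h1, h2, h3, h4⟩ := Pool.Agent.P.MP_8f38d0_ag.main n
  refine ⟨k, inferInstance, F, ringChar.eq k 3, fun A a b c q hq => ?_, ⟨h2, h3⟩,
    fun hx => ?_, h4⟩
  · obtain ⟨r, rfl⟩ := Nat.exists_eq_add_of_le' hq
    exact h1 A ⟨a, b, c⟩ r
  · simpa using h4 k hx

end Pool.Agent.Results.MP_8f38d0_ag.IndexThree
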